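import Pool.Agent.R828.CoreC

/-!
# MP_1b9d6e_gt: if the Scott space of `C(X)` is core-compact then so is `X`
-/

namespace Pool.Agent.Results.MP_1b9d6e_gt.ClosedSets

open Set TopologicalSpace Topology Pool.Agent.R828.CoreC

open Pool.Agent.R828.CC (ScottOpen)

universe u

/-- `ScottOpen` is defined in `Pool/Agent/R828/CoCons.lean`, and `scottTop`, `WayBelow`,
`CoreCompact` in `Pool/Agent/R828/CoreC.lean`. No separation axiom is needed. -/
theorem result (X : Type u) [tX : TopologicalSpace X]
    (h : CoreCompact (scottTop (Closeds X))) :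
    -- `X` is core-compact
    CoreCompact tX ∧
      -- moreover `x ↦ cl {x}` is continuous from `X` to the Scott space of `C(X)`
      ∀ 𝒰 : Set (Closeds X), ScottOpen 𝒰 →
        IsOpen {x : X | (⟨closure {x}, isClosed_closure⟩ : Closeds X) ∈ 𝒰} :=
  ⟨coreCompact h, fun _ h𝒰 => isOpen_preimage h h𝒰⟩

end Pool.Agent.Results.MP_1b9d6e_gt.ClosedSets
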